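import Pool.Agent.helper3.T6.SpecH

/-!
# MP_16912e, project T6, block H, row HCL: the classes of one field
-/

set_option autoImplicit false

namespace Pool.Agent.T6

open Finset NumberField Pool.Agent.helper3.FT Pool.Agent.helper47.RA Pool.Agent.T5
open scoped nonZeroDivisors

open Classical in
/-- the class of an ideal (`1` for the zero ideal) -/
noncomputable def HCL_cl {K : Type} [Field K] [NumberField K] (a : Ideal (𝓞 K)) : ClassGroup (𝓞 K) :=
  if h : a ∈ (Ideal (𝓞 K))⁰ then ClassGroup.mk0 ⟨a, h⟩ else 1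

theorem HCL_cl_eq {K : Type} [Field K] [NumberField K] (a : (Ideal (𝓞 K))⁰) :
    HCL_cl (a : Ideal (𝓞 K)) = ClassGroup.mk0 a := by
  unfold HCL_cl
  rw [dif_pos a.2]

/-- dyadic position of a number `m ∈ [1, M]` -/
theorem HCL_dyad (M : ℝ) (m : ℕ) (h1 : 1 ≤ m) (hM : (m : ℝ) ≤ M) :
    ∃ i : ℕ, (m : ℝ) ≤ M / 2 ^ i ∧ M / 2 ^ (i + 1) < (m : ℝ) := by
  have hm : (0 : ℝ) < (m : ℝ) := by exact_mod_cast h1
  have hx : 1 ≤ M / (m : ℝ) := by
    rw [le_div_iff₀ hm]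
    linarith
  obtain ⟨i, hi1, hi2⟩ := exists_nat_pow_near hx (by norm_num : (1 : ℝ) < 2)
  refine ⟨i, ?_, ?_⟩
  · rw [le_div_iff₀ hm] at hi1
    rw [le_div_iff₀ (by positivity)]
    linarith
  · rw [div_lt_iff₀ hm] at hi2
    rw [div_lt_iff₀ (by positivity)]
    linarith

/-- the injection `c ↦ c²` -/
theorem HCL_half {G : Type} [CommGroup G] [Fintype G] [DecidableEq G] (m : G → ℕ) (hinv : ∀ c, m c⁻¹ = m c) :
    (univ.filter fun c : G => c ^ 5 = 1).card ≤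
      1 + 2 * (univ.filter fun c : G => (c ^ 5 = 1 ∧ c ≠ 1) ∧ m c ≤ m (c ^ 2)).card := by
  have hpow : ∀ c : G, c ^ 5 = 1 → (c ^ 2) ^ 2 = c⁻¹ := by
    intro c hc
    rw [← pow_mul]
    have h1 : c ^ (2 * 2) * c = 1 := by
      rw [← pow_succ]
      exact hc
    exact eq_inv_of_mul_eq_one_left h1
  have hsub : (univ.filter fun c : G => c ^ 5 = 1) ⊆
      {1} ∪ ((univ.filter fun c : G => (c ^ 5 = 1 ∧ c ≠ 1) ∧ m c ≤ m (c ^ 2)) ∪
        (univ.filter fun c : G => (c ^ 5 = 1 ∧ c ≠ 1) ∧ ¬ m c ≤ m (c ^ 2))) := by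
    intro c hc
    have hc5 := (mem_filter.mp hc).2
    by_cases h1 : c = 1
    · rw [mem_union, mem_singleton]
      exact Or.inl h1
    · rw [mem_union, mem_union]
      right
      by_cases h2 : m c ≤ m (c ^ 2)
      · exact Or.inl (mem_filter.mpr ⟨mem_univ _, ⟨hc5, h1⟩, h2⟩)
      · exact Or.inr (mem_filter.mpr ⟨mem_univ _, ⟨hc5, h1⟩, h2⟩)
  have hinj : (univ.filter fun c : G => (c ^ 5 = 1 ∧ c ≠ 1) ∧ ¬ m c ≤ m (c ^ 2)).card ≤
      (univ.filter fun c : G => (c ^ 5 = 1 ∧ c ≠ 1) ∧ m c ≤ m (c ^ 2)).card := by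
    apply card_le_card_of_injOn (fun c => c ^ 2)
    · intro c hc
      rw [mem_coe, mem_filter] at hc
      obtain ⟨-, ⟨hc5, hc1⟩, hc2⟩ := hc
      rw [mem_coe, mem_filter]
      refine ⟨mem_univ _, ⟨?_, ?_⟩, ?_⟩
      · rw [← pow_mul, mul_comm, pow_mul, hc5, one_pow]
      · intro h
        apply hc1
        have h2 := hpow c hc5
        have h' : c ^ 2 = 1 := h
        rw [h', one_pow] at h2
        exact inv_eq_one.mp h2.symm
      · show m (c ^ 2) ≤ m ((c ^ 2) ^ 2)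
        rw [hpow c hc5, hinv]
        omega
    · intro c hc c' hc' h
      rw [mem_coe, mem_filter] at hc hc'
      have h1 := hpow c hc.2.1.1
      have h2 := hpow c' hc'.2.1.1
      simp only at h
      rw [h, h2] at h1
      exact (inv_injective h1).symm
  have h3 := (card_le_card hsub).trans (card_union_le _ _)
  have h4 := card_union_le (univ.filter fun c : G => (c ^ 5 = 1 ∧ c ≠ 1) ∧ m c ≤ m (c ^ 2))
    (univ.filter fun c : G => (c ^ 5 = 1 ∧ c ≠ 1) ∧ ¬ m c ≤ m (c ^ 2))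
  rw [card_singleton] at h3
  omega

theorem HCL (hHMU : HMU_stmt) : HCL_stmt := by
  intro K _ _ Q hK hD M I hM
  classical
  obtain ⟨h1, -, h3, h4, h5⟩ := hHMU K Q hD
  have hfin : ∀ Y l : ℝ, (IM Q Y l).Finite := fun Y l => (SFA.1 K Y).subset fun a ha => ha.1
  have hfinC : ∀ Y : ℝ, (CLS K Y).Finite := fun Y => Set.toFinite _
  have hcard : Nat.card {x : ClassGroup (𝓞 K) // x ^ 5 = 1} =
      (univ.filter fun c : ClassGroup (𝓞 K) => c ^ 5 = 1).card := by
    rw [Nat.card_eq_fintype_card, Fintype.card_subtype]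
  have hhalf := HCL_half (G := ClassGroup (𝓞 K)) mu (fun c => (h3 c).2.1)
  have hP : (univ.filter fun c : ClassGroup (𝓞 K) => (c ^ 5 = 1 ∧ c ≠ 1) ∧ mu c ≤ mu (c ^ 2)) ⊆
      ((range I).biUnion fun i => (range (i + 1)).biUnion fun j =>
        ((hfin (M / 2 ^ i) (M / 2 ^ (j + 1))).toFinset).image HCL_cl) ∪ (hfinC (M / 2 ^ I)).toFinset := by
    intro c hc
    obtain ⟨-, ⟨hc5, hc1⟩, hc2⟩ := mem_filter.mp hc
    obtain ⟨a, hac, haN⟩ := h1 c
    have hmu1 := (h3 c).1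
    have hmuM : ((mu c : ℕ) : ℝ) ≤ M := (h3 c).2.2.trans hM
    have hmu1' := (h3 (c ^ 2)).1
    have hmuM' : ((mu (c ^ 2) : ℕ) : ℝ) ≤ M := (h3 (c ^ 2)).2.2.trans hM
    have hM0 : 0 < M := by
      have : (0 : ℝ) < (mu c : ℝ) := by exact_mod_cast hmu1
      linarith
    obtain ⟨i, hi1, hi2⟩ := HCL_dyad M (mu c) hmu1 hmuM
    obtain ⟨j, hj1, hj2⟩ := HCL_dyad M (mu (c ^ 2)) hmu1' hmuM'
    have hle : ((mu c : ℕ) : ℝ) ≤ (mu (c ^ 2) : ℝ) := by exact_mod_cast hc2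
    have hji : j ≤ i := by
      by_contra hcon
      have h6 : i + 1 ≤ j := by omega
      have h7 : M / 2 ^ j ≤ M / 2 ^ (i + 1) :=
        div_le_div_of_nonneg_left hM0.le (by positivity) (pow_le_pow_right₀ (by norm_num) h6)
      linarith
    rw [mem_union]
    by_cases hiI : i < I
    · left
      rw [mem_biUnion]
      refine ⟨i, mem_range.mpr hiI, ?_⟩
      rw [mem_biUnion]
      refine ⟨j, mem_range.mpr (by omega), ?_⟩
      rw [mem_image]
      refine ⟨(a : Ideal (𝓞 K)), ?_, by rw [HCL_cl_eq, hac]⟩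
      rw [Set.Finite.mem_toFinset]
      have hN0 : (0 : ℝ) < (Ideal.absNorm (a : Ideal (𝓞 K)) : ℝ) := by
        rw [haN]
        exact_mod_cast hmu1
      refine ⟨⟨?_, ?_, ?_, ?_, ?_, ?_⟩, ?_, ?_⟩
      · exact mem_nonZeroDivisors_iff_ne_zero.mp a.2
      · exact h4 a (by rw [hac, haN])
      · have hmem : (a : Ideal (𝓞 K)) ^ 5 ∈ (Ideal (𝓞 K))⁰ := pow_mem a.2 5
        have he : (⟨(a : Ideal (𝓞 K)) ^ 5, hmem⟩ : (Ideal (𝓞 K))⁰) = a ^ 5 := Subtype.ext (SubmonoidClass.coe_pow a 5).symm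
        have h6 : ClassGroup.mk0 (⟨(a : Ideal (𝓞 K)) ^ 5, hmem⟩ : (Ideal (𝓞 K))⁰) = 1 := by rw [he, map_pow, hac, hc5]
        exact (ClassGroup.mk0_eq_one_iff hmem).mp h6
      · intro h6
        apply hc1
        rw [← hac]
        exact (ClassGroup.mk0_eq_one_iff a.2).mpr h6
      · rw [haN, div_div, ← pow_succ]
        exact hi2
      · rw [haN]
        exact hi1
      · intro α hα hα0
        have h6 := (h5 a).1 α hα hα0
        rw [hac] at h6
        refine lt_of_lt_of_le ?_ h6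
        exact mul_lt_mul_of_pos_left hj2 (by positivity)
      · obtain ⟨α, hα, hα0, hαe⟩ := (h5 a).2
        refine ⟨α, hα, hα0, ?_⟩
        rw [hαe, hac]
        apply mul_le_mul_of_nonneg_left _ (by positivity)
        have h6 : 2 * (M / 2 ^ (j + 1)) = M / 2 ^ j := by
          rw [pow_succ]
          field_simp
        rw [h6]
        exact hj1
    · right
      rw [Set.Finite.mem_toFinset]
      refine ⟨hc5, hc1, a, hac, ?_⟩
      rw [haN]
      refine hi1.trans ?_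
      exact div_le_div_of_nonneg_left hM0.le (by positivity) (pow_le_pow_right₀ (by norm_num) (by omega))
  have hPc : (univ.filter fun c : ClassGroup (𝓞 K) => (c ^ 5 = 1 ∧ c ≠ 1) ∧ mu c ≤ mu (c ^ 2)).card ≤
      (∑ i ∈ range I, ∑ j ∈ range (i + 1), (IM Q (M / 2 ^ i) (M / 2 ^ (j + 1))).ncard) + (CLS K (M / 2 ^ I)).ncard := by
    refine (card_le_card hP).trans ((card_union_le _ _).trans ?_)
    have hC : (hfinC (M / 2 ^ I)).toFinset.card = (CLS K (M / 2 ^ I)).ncard :=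
      (Set.ncard_eq_toFinset_card _ (hfinC (M / 2 ^ I))).symm
    rw [hC]
    apply Nat.add_le_add_right
    refine card_biUnion_le.trans (sum_le_sum fun i _ => ?_)
    refine card_biUnion_le.trans (sum_le_sum fun j _ => ?_)
    refine card_image_le.trans (le_of_eq ?_)
    exact (Set.ncard_eq_toFinset_card _ (hfin (M / 2 ^ i) (M / 2 ^ (j + 1)))).symm
  have hfinal : Nat.card {x : ClassGroup (𝓞 K) // x ^ 5 = 1} ≤
      1 + 2 * ((∑ i ∈ range I, ∑ j ∈ range (i + 1), (IM Q (M / 2 ^ i) (M / 2 ^ (j + 1))).ncard) +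
        (CLS K (M / 2 ^ I)).ncard) := by
    rw [hcard]
    omega
  have h6 : ((Nat.card {x : ClassGroup (𝓞 K) // x ^ 5 = 1} : ℕ) : ℝ) ≤
      ((1 + 2 * ((∑ i ∈ range I, ∑ j ∈ range (i + 1), (IM Q (M / 2 ^ i) (M / 2 ^ (j + 1))).ncard) +
        (CLS K (M / 2 ^ I)).ncard) : ℕ) : ℝ) := by exact_mod_cast hfinal
  push_cast at h6
  exact h6

end Pool.Agent.T6
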