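import Pool.Agent.helper95.T6.SpecE

set_option autoImplicit false

/-! Row t6l:EUB (MP_16912e_nt): the bad tuples -/

namespace Pool.Agent.T6

open Finset Pool.Agent.helper3.FT Pool.Agent.T5

/-- a tuple of a type -/
structure EUB_Ty (P₁ P₂ P₃ P₄ : ℕ) (t : Tpl) : Prop where
  m : (P₁ : ℤ) ∣ t.2.1
  g : (P₂ : ℤ) ∣ t.2.2.1
  z : (P₃ : ℤ) ∣ t.2.2.2
  nk : P₄ ∣ t.1.1 * t.1.2
  co : Nat.Coprime P₃ (t.1.1 * t.1.2)

theorem EUB_split (p : ℕ) (hp : p.Prime) (t : Tpl) (h : BadP p t) :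
    (EUB_Ty p 1 p 1 t ∨ EUB_Ty 1 p p 1 t) ∨ (EUB_Ty p 1 1 p t ∨ EUB_Ty 1 p 1 p t) := by
  obtain ⟨h1, h2⟩ := h
  have hpz : Prime (p : ℤ) := Nat.prime_iff_prime_int.1 hp
  by_cases h3 : p ∣ t.1.1 * t.1.2
  · right
    rcases hpz.dvd_or_dvd h1 with h4 | h4
    · left
      exact ⟨h4, by simp, by simp, h3, Nat.coprime_one_left _⟩
    · right
      exact ⟨by simp, h4, by simp, h3, Nat.coprime_one_left _⟩
  · left
    have h5 : (p : ℤ) ∣ t.2.2.2 := h2.resolve_left h3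
    have h6 : Nat.Coprime p (t.1.1 * t.1.2) := (Nat.Prime.coprime_iff_not_dvd hp).2 h3
    rcases hpz.dvd_or_dvd h1 with h4 | h4
    · left
      exact ⟨h4, by simp, h5, one_dvd _, h6⟩
    · right
      exact ⟨by simp, h4, h5, one_dvd _, h6⟩

open Classical in
/-- one block, one type -/
theorem EUB_blk (hEPU : EPU_stmt) (hESN : ESN_stmt) (hEPN : EPN_stmt) (y₀ B : ℕ) (C₀ τ : ℝ)
    (hy₀ : 5 ≤ y₀) (hC₀ : 1 ≤ C₀) (hτ : 0 < τ) (hτ1 : τ ≤ 1 / 100)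
    (hLFS : ∀ b : ℝ, 1 ≤ b → ∀ u : ℕ, ∑ p ∈ PR y₀ u, (√(2 ^ u) / lamb b p.1 p.2) ^ (3 / 2 : ℝ) ≤
      C₀ * (1 + b ^ B * (2 : ℝ) ^ (-(τ * u))) * 4 ^ u) :
    ∃ C₂ C₃ : ℝ, 1 ≤ C₂ ∧ 1 ≤ C₃ ∧ ∀ (N K L L' T e p P₁ P₂ P₃ P₄ : ℕ) (b ρ V : ℝ),
      EB N K L L' T e P₁ P₂ P₄ b ρ → 1 ≤ e → p.Prime → ¬ p ∣ e → P₁ * P₂ = p → P₃ * P₄ = p →
      e * p ≤ N → e * p ≤ K → b ^ B ≤ (T : ℝ) ^ τ → 0 < V →
      64 * T * V ≤ P₃ * ((N : ℝ) ^ 3 * K * e) →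
      ∀ F : Finset Tpl, (∀ t ∈ F, IsT t ∧ (N < 2 * t.1.1 ∧ t.1.1 ≤ N ∧ K < 2 * t.1.2 ∧ t.1.2 ≤ K) ∧
        CC e t ∧ EUB_Ty P₁ P₂ P₃ P₄ t ∧ |(t.2.1 : ℝ)| + P₁ * e ≤ P₁ * e * (L : ℝ) ∧
        |(t.2.2.1 : ℝ)| + P₂ * e ≤ P₂ * e * (L' : ℝ) ∧ 0 < t.2.2.2 ∧ (t.2.2.2 : ℝ) ≤ V) →
      (F.card : ℝ) ≤ C₂ / ((e : ℝ) ^ 2 * P₄) * ((N : ℝ) * K * (L * L' / T)) +
        C₃ * (1 / (T : ℝ) * (√(L * L' : ℝ) * (T * (N * K / P₄) + ρ ^ (3 / 2 : ℝ) *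
          ((T : ℝ) ^ (5 / 4 : ℝ) + N * K * (T : ℝ) ^ (1 / 4 : ℝ) / P₄)))) := by
  obtain ⟨CU, hCU, hU⟩ := hEPU
  obtain ⟨CS, hCS, hS⟩ := hESN y₀ B C₀ τ hy₀ hC₀ hτ hτ1 hLFS
  have hCS2 : 1 ≤ CS ^ 2 := one_le_pow₀ hCS
  refine ⟨8 * CU, 2 * CU * CS ^ 2, by linarith, by nlinarith, ?_⟩
  intro N K L L' T e p P₁ P₂ P₃ P₄ b ρ V hEB he hp hpe h12 h34 hN hK hbB hV hTV F hF
  have hp1 : 1 ≤ p := hp.one_lt.le
  have hP₁ : 1 ≤ P₁ := Nat.pos_of_ne_zero (fun h => by rw [h, zero_mul] at h12; omega)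
  have hP₂ : 1 ≤ P₂ := Nat.pos_of_ne_zero (fun h => by rw [h, mul_zero] at h12; omega)
  have hP₃ : 1 ≤ P₃ := Nat.pos_of_ne_zero (fun h => by rw [h, zero_mul] at h34; omega)
  have hP₄ : 1 ≤ P₄ := Nat.pos_of_ne_zero (fun h => by rw [h, mul_zero] at h34; omega)
  have hpc : Nat.Coprime p e := (Nat.Prime.coprime_iff_not_dvd hp).2 hpe
  have c1 : Nat.Coprime P₁ e := Nat.Coprime.coprime_dvd_left (Dvd.intro _ h12) hpc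
  have c2 : Nat.Coprime P₂ e := Nat.Coprime.coprime_dvd_left (Dvd.intro_left _ h12) hpc
  have c3 : Nat.Coprime P₃ e := Nat.Coprime.coprime_dvd_left (Dvd.intro _ h34) hpc
  have d4 : P₄ ∣ p := Dvd.intro_left _ h34
  have c4 : Nat.Coprime P₄ e := Nat.Coprime.coprime_dvd_left d4 hpc
  have hP4 : P₄ = 1 ∨ P₄ = p := (Nat.dvd_prime hp).1 d4
  have hP4' : P₄ = 1 ∨ P₄.Prime := by
    rcases hP4 with h | h
    · left; exact h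
    · right; rw [h]; exact hp
  have hsq : Squarefree P₄ := by
    rcases hP4' with h | h
    · rw [h]; exact squarefree_one
    · exact h.prime.squarefree
  have hω : P₄.primeFactors.card + 1 ≤ 2 := by
    rcases hP4' with h | h
    · rw [h]; simp
    · rw [h.primeFactors]; simp
  have hP4le : P₄ ≤ p := Nat.le_of_dvd hp1 d4
  have hT1 : (1 : ℝ) ≤ T := by exact_mod_cast hEB.T1
  have hT0 : (0 : ℝ) < T := by linarith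
  have hN0 : (0 : ℝ) < N := by exact_mod_cast hEB.N1
  have hK0 : (0 : ℝ) < K := by exact_mod_cast hEB.K1
  have hL0 : (0 : ℝ) < L := by exact_mod_cast hEB.L1
  have hL0' : (0 : ℝ) < L' := by exact_mod_cast hEB.L1'
  have he0 : (0 : ℝ) < e := by exact_mod_cast he
  have hP₃0 : (0 : ℝ) < P₃ := by exact_mod_cast hP₃
  have hP₄0 : (0 : ℝ) < P₄ := by exact_mod_cast hP₄
  have hρ := hEB.ρ0
  set W : Finset (ℕ × ℕ) := (pairs N K P₄).filter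
    (fun q => (e : ℤ) ∣ (q.1 : ℤ) - 1 ∧ (e : ℤ) ∣ (q.2 : ℤ) - 1 ∧ Nat.Coprime P₃ (q.1 * q.2)) with hW
  have hWsub : W ⊆ pairs N K P₄ := filter_subset _ _
  have hex : ∀ q ∈ W, ∃ a : ℤ × ℤ × ℤ, RT q.1 q.2 P₁ P₂ P₃ a ∧ ∀ F' : Finset Tpl,
      (∀ t ∈ F', IsT t ∧ t.1 = (q.1, q.2) ∧ CC e t ∧ (P₁ : ℤ) ∣ t.2.1 ∧ (P₂ : ℤ) ∣ t.2.2.1 ∧
        (P₃ : ℤ) ∣ t.2.2.2 ∧ |(t.2.1 : ℝ)| + P₁ * e ≤ P₁ * e * (L : ℝ) ∧
        |(t.2.2.1 : ℝ)| + P₂ * e ≤ P₂ * e * (L' : ℝ) ∧ 0 < t.2.2.2 ∧ (t.2.2.2 : ℝ) ≤ V) →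
      (F'.card : ℝ) ≤ CU / T * (L * L' + √(L * L' : ℝ) * NS L L' T e q.1 q.2 a) := by
    intro q hq
    rw [hW, mem_filter] at hq
    obtain ⟨hq1, hq2, hq3, hq4⟩ := hq
    unfold pairs at hq1
    rw [mem_filter, mem_product, mem_Icc, mem_Icc] at hq1
    obtain ⟨⟨⟨hn1, hnN⟩, hk1, hkK⟩, hNn, hKk, hco, -⟩ := hq1
    obtain ⟨a, ha1, ha2⟩ := hU q.1 q.2 e P₁ P₂ P₃ hn1 hk1 he hP₁ hP₂ hP₃ hco hq2 hq3 c1 c2
      (Nat.Coprime.mul_right hq4 c3)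
    refine ⟨a, ha1, ?_⟩
    intro F' hF'
    refine ha2 L L' T V F' hEB.L1 hEB.L1' hEB.T1 hV ?_ hF'
    have hNn' : (N : ℝ) ≤ 2 * q.1 := by exact_mod_cast hNn.le
    have hKk' : (K : ℝ) ≤ 2 * q.2 := by exact_mod_cast hKk.le
    have e0 : (N : ℝ) ^ 3 ≤ (2 * q.1) ^ 3 := pow_le_pow_left₀ hN0.le hNn' 3
    have e1 : (P₃ : ℝ) * ((N : ℝ) ^ 3 * K * e) ≤ P₃ * ((2 * q.1) ^ 3 * (2 * q.2) * e) := by
      gcongr
    have e2 : (P₃ : ℝ) * ((2 * q.1) ^ 3 * (2 * q.2) * e) = 16 * (P₃ * ((q.1 : ℝ) ^ 3 * q.2 * e)) := by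
      ring
    have e3 : 64 * (T : ℝ) * V = 16 * (4 * T * V) := by ring
    linarith
  choose! a ha using hex
  -- the maps
  have hmaps : ∀ t ∈ F, t.1 ∈ W := by
    intro t ht
    obtain ⟨h1, ⟨h2, h3, h4, h5⟩, h6, h7, -⟩ := hF t ht
    rw [hW, mem_filter]
    refine ⟨?_, h6.n, h6.k, h7.co⟩
    unfold pairs
    rw [mem_filter, mem_product, mem_Icc, mem_Icc]
    exact ⟨⟨⟨h1.n1, h3⟩, ⟨h1.k1, h5⟩⟩, h2, h4, h1.co, h7.nk⟩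
  have hcard : F.card = ∑ q ∈ W, (F.filter (fun t => t.1 = q)).card :=
    card_eq_sum_card_fiberwise (f := fun t : Tpl => t.1) (fun t ht => hmaps t ht)
  have hsum : (F.card : ℝ) ≤ ∑ q ∈ W, CU / T * (L * L' + √(L * L' : ℝ) * NS L L' T e q.1 q.2 (a q)) := by
    rw [hcard]
    push_cast
    apply sum_le_sum
    intro q hq
    refine (ha q hq).2 _ ?_
    intro t ht
    rw [mem_filter] at ht
    obtain ⟨ht1, ht2⟩ := ht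
    obtain ⟨h1, -, h6, h7, h8, h9, h10, h11⟩ := hF t ht1
    exact ⟨h1, ht2, h6, h7.m, h7.g, h7.z, h8, h9, h10, h11⟩
  -- the number of pairs
  have hWc : (W.card : ℝ) ≤ 8 * ((N : ℝ) * K) / ((e : ℝ) ^ 2 * P₄) := by
    refine le_trans ?_ (hEPN N K e P₄ he hP4' c4 (le_trans (Nat.mul_le_mul_left _ hP4le) hN)
      (le_trans (Nat.mul_le_mul_left _ hP4le) hK))
    have : W ⊆ (pairs N K P₄).filter (fun p => (e : ℤ) ∣ (p.1 : ℤ) - 1 ∧ (e : ℤ) ∣ (p.2 : ℤ) - 1) := by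
      intro q hq
      rw [hW, mem_filter] at hq
      rw [mem_filter]
      exact ⟨hq.1, hq.2.1, hq.2.2.1⟩
    exact_mod_cast card_le_card this
  -- the sum of the near points
  have hNS := hS N K L L' T e P₁ P₂ P₃ P₄ P₄ b ρ hEB he hsq hP₁ hP₂ hP₃ hP₄ (by rw [h12, h34]) W a hWsub
    (fun q hq => ⟨by rw [hW, mem_filter] at hq; exact hq.2.2.2, (ha q hq).1⟩)
  have hbT : b ^ B * (T : ℝ) ^ (-τ) ≤ 1 := by
    rw [Real.rpow_neg hT0.le, ← div_eq_mul_inv, div_le_one (Real.rpow_pos_of_pos hT0 _)]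
    exact hbB
  set R : ℝ := ρ ^ (3 / 2 : ℝ) * ((T : ℝ) ^ (5 / 4 : ℝ) + N * K * (T : ℝ) ^ (1 / 4 : ℝ) / P₄) with hR
  have hR0 : 0 ≤ R := by
    have g1 : 0 ≤ ρ ^ (3 / 2 : ℝ) := Real.rpow_nonneg hρ _
    have g2 : 0 ≤ (T : ℝ) ^ (5 / 4 : ℝ) := Real.rpow_nonneg hT0.le _
    have g3 : 0 ≤ (T : ℝ) ^ (1 / 4 : ℝ) := Real.rpow_nonneg hT0.le _
    positivity
  have hM0 : 0 ≤ (T : ℝ) * (N * K / P₄) := by positivity
  have hNS2 : ∑ q ∈ W, NS L L' T e q.1 q.2 (a q) ≤ 2 * CS ^ 2 * (T * (N * K / P₄) + R) := by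
    refine hNS.trans ?_
    have g1 : CS ^ (P₄.primeFactors.card + 1) ≤ CS ^ 2 := pow_le_pow_right₀ hCS hω
    have g2 : (T : ℝ) * (N * K / P₄) + R * (1 + b ^ B * (T : ℝ) ^ (-τ)) ≤ 2 * (T * (N * K / P₄) + R) := by
      have : R * (1 + b ^ B * (T : ℝ) ^ (-τ)) ≤ R * 2 := mul_le_mul_of_nonneg_left (by linarith) hR0
      linarith
    have g3 : 0 ≤ (T : ℝ) * (N * K / P₄) + R * (1 + b ^ B * (T : ℝ) ^ (-τ)) := by
      have hb0 : 0 ≤ b ^ B * (T : ℝ) ^ (-τ) := by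
        have := hEB.b1
        have h2 : 0 ≤ (T : ℝ) ^ (-τ) := Real.rpow_nonneg hT0.le _
        have h3 : 0 ≤ b ^ B := pow_nonneg (by linarith) _
        positivity
      have : 0 ≤ R * (1 + b ^ B * (T : ℝ) ^ (-τ)) := mul_nonneg hR0 (by linarith)
      linarith
    calc CS ^ (P₄.primeFactors.card + 1) * (T * (N * K / P₄) + R * (1 + b ^ B * (T : ℝ) ^ (-τ)))
        ≤ CS ^ 2 * (2 * (T * (N * K / P₄) + R)) := mul_le_mul g1 g2 g3 (by positivity)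
      _ = 2 * CS ^ 2 * (T * (N * K / P₄) + R) := by ring
  -- the final computation
  refine hsum.trans ?_
  have hfin : ∑ q ∈ W, CU / T * (L * L' + √(L * L' : ℝ) * NS L L' T e q.1 q.2 (a q)) =
      CU / T * ((W.card : ℝ) * (L * L') + √(L * L' : ℝ) * ∑ q ∈ W, NS L L' T e q.1 q.2 (a q)) := by
    rw [← mul_sum, sum_add_distrib, sum_const, nsmul_eq_mul, ← mul_sum]
  rw [hfin]
  have hQ0 : 0 ≤ √(L * L' : ℝ) := Real.sqrt_nonneg _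
  have hLL : 0 ≤ (L : ℝ) * L' := by positivity
  have hCU0 : 0 ≤ CU := by linarith
  calc CU / T * ((W.card : ℝ) * (L * L') + √(L * L' : ℝ) * ∑ q ∈ W, NS L L' T e q.1 q.2 (a q))
      ≤ CU / T * (8 * ((N : ℝ) * K) / ((e : ℝ) ^ 2 * P₄) * (L * L') +
        √(L * L' : ℝ) * (2 * CS ^ 2 * (T * (N * K / P₄) + R))) := by gcongr
    _ = _ := by
        field_simp

/-- `Rg` is monotone -/
theorem EUB_Rg (η η' N Y Y₂ : ℝ) (hη : η ≤ η') (hN : 1 ≤ N) (hY : 0 ≤ Y) (h : Rg η N Y Y₂) :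
    Rg η' N Y Y₂ := by
  obtain ⟨h1, h2, h3, h4⟩ := h
  refine ⟨h1, le_trans h2 ?_, h3, le_trans ?_ h4⟩
  · exact mul_le_mul_of_nonneg_right (Real.rpow_le_rpow_of_exponent_le hN hη) hY
  · exact Real.rpow_le_rpow_of_exponent_le hN (by linarith)

open Classical in
theorem EUB (hEPU : EPU_stmt) (hESN : ESN_stmt) (hEPN : EPN_stmt) (hESZ : ESZ_stmt)
    (hENU : ENU_stmt) (hCZ : CZ_stmt) (hCBR : CBR_stmt) : EUB_stmt := by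
  rintro ⟨y₀, B, C₀, τ, hy₀, hC₀, hτ, hτ1, hLFS⟩
  obtain ⟨C₂, C₃, hC₂, hC₃, hblk⟩ := EUB_blk hEPU hESN hEPN y₀ B C₀ τ hy₀ hC₀ hτ hτ1 hLFS
  obtain ⟨η, hη, hη1, hU⟩ := hENU B τ hτ
  refine ⟨η, hη, ?_⟩
  intro κ hκ hκ1
  obtain ⟨C₄, hC₄, hU⟩ := hU κ hκ hκ1
  obtain ⟨C₅, hC₅, hCB⟩ := hCBR κ hκ hκ1
  have h1 : 1 ≤ C₂ * C₄ := one_le_mul_of_one_le_of_one_le hC₂ hC₄
  have h2 : 1 ≤ C₅ * (C₂ * C₄) := one_le_mul_of_one_le_of_one_le hC₅ h1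
  refine ⟨4 * (C₅ * (C₂ * C₄)), by linarith, ?_⟩
  intro e he
  obtain ⟨C₁, N₀, hC₁, hU⟩ := hU e he
  obtain ⟨N₀', hZ⟩ := hESZ (1 / κ ^ 2)
  have h3 : 1 ≤ C₃ * C₁ := one_le_mul_of_one_le_of_one_le hC₃ hC₁
  have h4 : 1 ≤ C₅ * (C₃ * C₁) := one_le_mul_of_one_le_of_one_le hC₅ h3
  refine ⟨4 * (C₅ * (C₃ * C₁)), max (max N₀ N₀') 1, by linarith, ?_⟩
  intro N Y Y₂ hN hRg p hp hpe hpN F hF
  have hN0 : N₀ ≤ N := le_trans (le_trans (le_max_left _ _) (le_max_left _ _)) hN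
  have hN0' : N₀' ≤ N := le_trans (le_trans (le_max_right _ _) (le_max_left _ _)) hN
  have hN1 : 1 ≤ N := le_trans (le_max_right _ _) hN
  have hNp : 0 < N := by linarith
  have hP : 0 < Y * Y₂ := lt_of_lt_of_le (Real.rpow_pos_of_pos hNp _) hRg.r4
  have hp1 : 1 ≤ p := hp.one_lt.le
  have hpR : (0 : ℝ) < p := by exact_mod_cast hp1
  have heR : (0 : ℝ) < e := by exact_mod_cast he
  set S : ℝ := Y * Y₂ / N with hS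
  have hS0 : 0 < S := div_pos hP hNp
  have hS32 : 0 ≤ S ^ (3 / 2 : ℝ) := Real.rpow_nonneg hS0.le _
  have hp14 : 0 ≤ (p : ℝ) ^ (1 / 4 : ℝ) := Real.rpow_nonneg hpR.le _
  have hE0 : 0 ≤ S ^ (3 / 2 : ℝ) * (p : ℝ) ^ (1 / 4 : ℝ) * (1 + p * S) := by positivity
  rcases F.eq_empty_or_nonempty with hE | ⟨t₀, ht₀⟩
  · rw [hE]
    simp only [Finset.card_empty, Nat.cast_zero]
    have : 0 ≤ 4 * (C₅ * (C₂ * C₄)) / ((p : ℝ) ^ 2 * (e : ℝ) ^ 5) := by positivity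
    have : 0 ≤ 4 * (C₅ * (C₃ * C₁)) * S ^ (3 / 2 : ℝ) * (p : ℝ) ^ (1 / 4 : ℝ) * (1 + p * S) := by
      positivity
    positivity
  have hY0 : 0 < Y := by
    have h := (hF t₀ ht₀).1
    have h1 := h.z1
    have h2 := h.z2
    linarith
  have hκ2 : 0 < κ ^ 2 := by positivity
  have hκ21 : κ ^ 2 ≤ 1 := pow_le_one₀ hκ.le hκ1
  have hX : 1 ≤ 1 / κ ^ 2 := by
    rw [le_div_iff₀ hκ2]; linarith
  obtain ⟨-, z1, z2, z3, z4, -, -⟩ := hZ N Y Y₂ hN0' (EUB_Rg η (1 / 100) N Y Y₂ hη1 hN1 hY0.le hRg)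
  have hY1 : 1 ≤ Y := le_trans hX z1
  have hY₂1 : 1 ≤ Y₂ := le_trans hX z2
  have hs1 : 1 ≤ κ ^ 2 * sN N Y Y₂ := by
    rw [div_le_iff₀ hκ2] at z3
    linarith
  have hs2 : 1 ≤ κ ^ 2 * sK N Y Y₂ := by
    rw [div_le_iff₀ hκ2] at z4
    linarith
  -- one block
  have hmain : (F.card : ℝ) ≤ C₅ * (4 * (C₂ * C₄ / ((p : ℝ) ^ 2 * (e : ℝ) ^ 5) * (Y * Y₂) +
      C₃ * C₁ * (S ^ (3 / 2 : ℝ) * (p : ℝ) ^ (1 / 4 : ℝ) * (1 + p * S)) * (Y * Y₂))) := by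
    refine hCB N Y Y₂ hN1 hY1 hY₂1 hs1 hs2 F (fun t ht => (hF t ht).1) _ (by positivity) ?_
    intro N₁ K₁ hN₁ hK₁ hBlk F' hF' hF''
    -- one type
    have htype : ∀ P₁ P₂ P₃ P₄ : ℕ, P₁ * P₂ = p → P₃ * P₄ = p → ∀ F₁ ⊆ F',
        (∀ t ∈ F₁, EUB_Ty P₁ P₂ P₃ P₄ t) →
        (F₁.card : ℝ) ≤ C₂ * C₄ / ((p : ℝ) ^ 2 * (e : ℝ) ^ 5) * (Y * Y₂) +
          C₃ * C₁ * (S ^ (3 / 2 : ℝ) * (p : ℝ) ^ (1 / 4 : ℝ) * (1 + p * S)) * (Y * Y₂) := by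
      intro P₁ P₂ P₃ P₄ h12 h34 F₁ hF₁ hTy
      obtain ⟨w1, w2, L, L', T, b, ρ, w3, w4, w5, w6, w7, w8, w9⟩ :=
        hU N Y Y₂ hN0 hRg p hp1 hpN P₁ P₂ P₃ P₄ h12 h34 N₁ K₁ hBlk
      have hP₃ : 1 ≤ P₃ := Nat.pos_of_ne_zero (fun h => by rw [h, zero_mul] at h34; omega)
      have hP₄ : 1 ≤ P₄ := Nat.pos_of_ne_zero (fun h => by rw [h, mul_zero] at h34; omega)
      have hP₃0 : (0 : ℝ) < P₃ := by exact_mod_cast hP₃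
      have hP₄0 : (0 : ℝ) < P₄ := by exact_mod_cast hP₄
      have h34R : (P₃ : ℝ) * P₄ = p := by exact_mod_cast h34
      have key := hblk N₁ K₁ L L' T e p P₁ P₂ P₃ P₄ b ρ Y w3 he hp hpe h12 h34 w1 w2 w4 hY0 w5 F₁ (by
        intro t ht
        have ht' := hF₁ ht
        obtain ⟨f1, f2, -⟩ := hF t (hF' ht')
        obtain ⟨-, -, -, -, c5, c6, c7, -⟩ := hCZ κ N Y Y₂ t hκ hκ1 hN1 hY1 hY₂1 f1
        exact ⟨f1.tt, hF'' t ht', f2, hTy t ht, by linarith, by linarith, c7, f1.z2⟩)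
      refine key.trans ?_
      have g1 : C₂ / ((e : ℝ) ^ 2 * P₄) * ((N₁ : ℝ) * K₁ * (L * L' / T)) ≤
          C₂ * C₄ / ((p : ℝ) ^ 2 * (e : ℝ) ^ 5) * (Y * Y₂) := by
        calc C₂ / ((e : ℝ) ^ 2 * P₄) * ((N₁ : ℝ) * K₁ * (L * L' / T)) ≤
            C₂ / ((e : ℝ) ^ 2 * P₄) * (C₄ * (Y * Y₂ / (p * P₃ * (e : ℝ) ^ 3))) :=
              mul_le_mul_of_nonneg_left w8 (by positivity)
          _ = C₂ * C₄ / ((p : ℝ) * (P₃ * P₄) * (e : ℝ) ^ 5) * (Y * Y₂) := by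
              field_simp
          _ = _ := by rw [h34R]; ring
      have g2 := mul_le_mul_of_nonneg_left w9 (show (0 : ℝ) ≤ C₃ by linarith)
      have g3 : C₃ * (C₁ * ((Y * Y₂) * (S ^ (3 / 2 : ℝ) * (p : ℝ) ^ (1 / 4 : ℝ) * (1 + p * S)))) =
          C₃ * C₁ * (S ^ (3 / 2 : ℝ) * (p : ℝ) ^ (1 / 4 : ℝ) * (1 + p * S)) * (Y * Y₂) := by ring
      rw [g3] at g2
      exact add_le_add g1 g2
    -- the four types
    set A₁ := F'.filter (fun t => EUB_Ty p 1 p 1 t) with hA₁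
    set A₂ := F'.filter (fun t => EUB_Ty 1 p p 1 t) with hA₂
    set A₃ := F'.filter (fun t => EUB_Ty p 1 1 p t) with hA₃
    set A₄ := F'.filter (fun t => EUB_Ty 1 p 1 p t) with hA₄
    have hsub : F' ⊆ (A₁ ∪ A₂) ∪ (A₃ ∪ A₄) := by
      intro t ht
      have hb := (hF t (hF' ht)).2.2
      rw [mem_union, mem_union, mem_union, hA₁, hA₂, hA₃, hA₄, mem_filter, mem_filter, mem_filter,
        mem_filter]
      rcases EUB_split p hp t hb with (h | h) | (h | h)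
      · left; left; exact ⟨ht, h⟩
      · left; right; exact ⟨ht, h⟩
      · right; left; exact ⟨ht, h⟩
      · right; right; exact ⟨ht, h⟩
    have hc : F'.card ≤ (A₁.card + A₂.card) + (A₃.card + A₄.card) := by
      refine (card_le_card hsub).trans ((card_union_le _ _).trans ?_)
      exact add_le_add (card_union_le _ _) (card_union_le _ _)
    have hcR : (F'.card : ℝ) ≤ ((A₁.card : ℝ) + A₂.card) + ((A₃.card : ℝ) + A₄.card) := by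
      exact_mod_cast hc
    have b1 := htype p 1 p 1 (mul_one _) (mul_one _) A₁ (filter_subset _ _)
      (fun t ht => by rw [hA₁, mem_filter] at ht; exact ht.2)
    have b2 := htype 1 p p 1 (one_mul _) (mul_one _) A₂ (filter_subset _ _)
      (fun t ht => by rw [hA₂, mem_filter] at ht; exact ht.2)
    have b3 := htype p 1 1 p (mul_one _) (one_mul _) A₃ (filter_subset _ _)
      (fun t ht => by rw [hA₃, mem_filter] at ht; exact ht.2)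
    have b4 := htype 1 p 1 p (one_mul _) (one_mul _) A₄ (filter_subset _ _)
      (fun t ht => by rw [hA₄, mem_filter] at ht; exact ht.2)
    linarith
  refine hmain.trans (le_of_eq ?_)
  ring

end Pool.Agent.T6
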